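import Pool.Agent.MP_81f5b7_pr.H66.Spec

/-! Rare ticks and independent sets. -/

namespace Pool.Agent.MP_81f5b7_pr.H66

open Finset
open scoped Classical

namespace NMI

variable {ι : Type} [DecidableEq ι] [Fintype ι] {q : ℝ}

theorem ex_take (h0 : 0 ≤ q) (h1 : q ≤ 1) {A : Finset ι → Prop} {c : ℝ}
    (h : Ex q univ (fun B => ind (A B)) ≤ c) (m s : ℕ) :
    PL q m (fun l => ∃ B ∈ l.take s, A B) ≤ s * c := by
  have hc : 0 ≤ c := (Ex_nonneg h0 h1 fun _ _ => ind_nonneg _).trans h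
  induction m generalizing s with
  | zero =>
    rw [PL_false fun l hl => by simp [List.length_eq_zero_iff.1 hl]]
    positivity
  | succ m ih =>
    rcases s with _ | s
    · rw [PL_false fun l _ => by simp]
      simp
    · rw [PL, EL_succ]
      refine (Ex_mono h0 h1 (G := fun B => ind (A B) + s * c) fun B _ => ?_).trans ?_
      · refine (EL_mono h0 h1 (g := fun l => ind (A B) + ind (∃ B ∈ l.take s, A B))
          fun l _ => le_trans (ind_mono ?_) (ind_or _ _)).trans ?_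
        · rintro ⟨B', h2, h3⟩
          rw [List.take_succ_cons, List.mem_cons] at h2
          exact h2.imp (fun e : B' = B => e ▸ h3) fun h2 => ⟨B', h2, h3⟩
        · rw [EL_add, EL_const]
          exact add_le_add le_rfl (ih s)
      · rw [Ex_add, Ex_const]
        push_cast
        linarith

theorem ex_two (h0 : 0 ≤ q) (h1 : q ≤ 1) :
    Ex q univ (fun B : Finset ι => ind (1 < B.card)) ≤ (Fintype.card ι : ℝ) ^ 2 * q ^ 2 := by
  refine (Ex_mono h0 h1 (G := fun B => ∑ z ∈ (univ : Finset ι).offDiag, ind (z.1 ∈ B ∧ z.2 ∈ B))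
    fun B _ => le_trans (ind_mono fun h => ?_) (ind_exists _ _)).trans ?_
  · obtain ⟨a, ha, b, hb, hab⟩ := one_lt_card.1 h
    exact ⟨(a, b), by simpa using hab, ha, hb⟩
  · rw [Ex_sum, sum_congr rfl fun z hz => Ex_mem₂ (mem_univ _) (mem_univ _) (mem_offDiag.1 hz).2.2,
      sum_const, nsmul_eq_mul]
    refine mul_le_mul_of_nonneg_right ?_ (sq_nonneg q)
    rw [offDiag_card, card_univ, pow_two]
    exact_mod_cast Nat.sub_le _ _

theorem ex_one (h0 : 0 ≤ q) (h1 : q ≤ 1) :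
    Ex q univ (fun B : Finset ι => ind B.Nonempty) ≤ (Fintype.card ι : ℝ) * q := by
  refine (Ex_mono h0 h1 (G := fun B => ∑ z ∈ (univ : Finset ι), ind (z ∈ B))
    fun B _ => le_trans (ind_mono fun ⟨a, ha⟩ => ⟨a, mem_univ _, ha⟩) (ind_exists _ _)).trans ?_
  rw [Ex_sum, sum_congr rfl fun z hz => Ex_mem hz, sum_const, nsmul_eq_mul, card_univ]

theorem miss (h1 : q ≤ 1) (m : ℕ) (P : Finset ι) :
    PL q m (fun l => (un l ∩ P).card = 0) ≤ Real.exp (-(m * q * P.card)) := by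
  have e : ∀ A : Finset ι, ind ((A ∩ P).card = 0) = (0 : ℝ) ^ (A ∩ P).card := fun A => by
    by_cases h : (A ∩ P).card = 0
    · rw [ind_pos h, h, pow_zero]
    · rw [ind_neg h, zero_pow h]
  rw [PL, EL_un fun A => ind ((A ∩ P).card = 0), Ex_congr fun A _ => e A,
    Ex_pow (subset_univ P), mul_zero, add_zero, sub_sub_cancel, ← pow_mul,
    show -(m * q * P.card) = ((m * P.card : ℕ) : ℝ) * -q by push_cast; ring, Real.exp_nat_mul]
  exact pow_le_pow_left₀ (sub_nonneg.2 h1) (by linarith [Real.add_one_le_exp (-q)]) _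

end NMI

open NMI

theorem rowNM : SNM := by
  intro T κ s₀ hκ
  refine ⟨max 2 ⌈(T + s₀) / κ⌉₊, fun V _ _ q m hn hq hT => ?_⟩
  obtain ⟨h0, h1, -, -⟩ := hq.le (le_of_max_le_left hn)
  have h2 : (2 : ℝ) ≤ Fintype.card V := by exact_mod_cast le_of_max_le_left hn
  have h3 : (T + s₀) / κ ≤ Fintype.card V := Nat.ceil_le.1 (le_of_max_le_right hn)
  have h4 := card_sym2_le (V := V)
  have h5 := hq.2
  rw [tm] at hT
  rw [div_le_iff₀ hκ] at h3
  refine (PL_or h0 h1 _ _).trans ?_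
  have a1 := ex_take h0 h1 (ex_two (ι := Sym2 V) h0 h1) m m
  have a2 := ex_take h0 h1 (ex_one (ι := Sym2 V) h0 h1) m s₀
  have a3 : PL q m (fun l : List (Finset (Sym2 V)) => ¬NM l) ≤
      PL q m fun l : List (Finset (Sym2 V)) => ∃ B ∈ l.take m, 1 < B.card :=
    PL_mono h0 h1 fun l hl h => by
      rw [List.take_of_length_le hl.le]
      simpa [NM] using h
  generalize (Fintype.card V : ℝ) = n at *
  generalize hN : (Fintype.card (Sym2 V) : ℝ) = N at *
  have hN0 : 0 ≤ N := hN ▸ Nat.cast_nonneg _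
  have b1 : N ^ 2 * q ^ 2 ≤ q := by
    calc N ^ 2 * q ^ 2 ≤ (n ^ 2) ^ 2 * q ^ 2 := by gcongr
      _ = q * (q * n ^ 4) := by ring
      _ = q := by rw [h5, mul_one]
  have b2 : N * q * n ≤ 1 := by
    calc N * q * n ≤ n ^ 2 * q * n := by gcongr
      _ = q * n ^ 3 := by ring
      _ ≤ q * n ^ 4 := by gcongr <;> linarith
      _ = 1 := h5
  have b3 : (m : ℝ) * (N ^ 2 * q ^ 2) ≤ m * q := by gcongr
  have b4 : (s₀ : ℝ) * (N * q * n) ≤ s₀ * 1 := by gcongr
  refine le_of_mul_le_mul_left (a := n) ?_ (by linarith)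
  nlinarith [mul_le_mul_of_nonneg_left (add_le_add (a3.trans (a1.trans b3)) a2)
    (by linarith : 0 ≤ n)]

theorem rowIND : SIND := by
  intro ε hε
  refine ⟨8 / ε ^ 2, fun κ hκ => ⟨max 2 (max ⌈2 / ε⌉₊ ⌈1 / κ⌉₊), fun V _ _ q m hn hq hT => ?_⟩⟩
  obtain ⟨h0, h1, -, -⟩ := hq.le (le_of_max_le_left hn)
  have h2 : 2 / ε ≤ Fintype.card V := Nat.ceil_le.1 (le_of_max_le_left (le_of_max_le_right hn))
  have h3 : 1 / κ ≤ Fintype.card V := Nat.ceil_le.1 (le_of_max_le_right (le_of_max_le_right hn))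
  have h4 : (2 : ℝ) ≤ Fintype.card V := by exact_mod_cast le_of_max_le_left hn
  rw [tm, div_le_iff₀ (by positivity)] at hT
  rw [div_le_iff₀ hε] at h2
  refine (PL_mono h0 h1 (Q := fun l => ∃ W ∈ univ.filter fun W : Finset V =>
    ε * Fintype.card V ≤ W.card, (un l ∩ W.offDiag.image Sym2.mk.uncurry).card = 0) ?_).trans
    ((PL_exists h0 h1 _ _).trans ?_)
  · rintro l - ⟨W, a, b⟩
    refine ⟨W, mem_filter.2 ⟨mem_univ _, a⟩, card_eq_zero.2 (eq_empty_of_forall_notMem fun e he => ?_)⟩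
    obtain ⟨c, d⟩ := mem_inter.1 he
    obtain ⟨B, hB, c⟩ := mem_un.1 c
    obtain ⟨z, hz, rfl⟩ := mem_image.1 d
    obtain ⟨d1, d2, d3⟩ := mem_offDiag.1 hz
    exact b B hB _ d1 _ d2 d3 c
  refine (sum_le_card_nsmul _ _ (Real.exp (-(2 * Fintype.card V))) fun W hW =>
    (miss h1 m _).trans (Real.exp_le_exp.2 (neg_le_neg ?_))).trans ?_
  · have a := (mem_filter.1 hW).2
    rw [Sym2.card_image_offDiag, Nat.cast_choose_two]
    generalize (Fintype.card V : ℝ) = n at *
    generalize (W.card : ℝ) = w at *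
    have b1 : (ε * n) ^ 2 / 4 ≤ w * (w - 1) / 2 := by nlinarith
    have b2 : 0 ≤ (m : ℝ) * q := by positivity
    have b3 := mul_le_mul_of_nonneg_left b1 b2
    nlinarith [mul_le_mul_of_nonneg_left hT (by linarith : 0 ≤ n)]
  · have a : ((univ.filter fun W : Finset V => ε * Fintype.card V ≤ W.card).card : ℝ) ≤
        Real.exp (Fintype.card V) := by
      have b : (univ.filter fun W : Finset V => ε * Fintype.card V ≤ W.card).card ≤
          2 ^ Fintype.card V := (card_le_univ _).trans_eq (Fintype.card_finset)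
      calc _ ≤ (2 : ℝ) ^ Fintype.card V := by exact_mod_cast b
        _ ≤ Real.exp 1 ^ Fintype.card V :=
          pow_le_pow_left₀ zero_le_two (by linarith [Real.add_one_le_exp 1]) _
        _ = _ := by rw [← Real.exp_nat_mul, mul_one]
    rw [nsmul_eq_mul]
    refine (mul_le_mul_of_nonneg_right a (Real.exp_pos _).le).trans ?_
    rw [← Real.exp_add, show (Fintype.card V : ℝ) + -(2 * Fintype.card V) = -Fintype.card V by ring,
      Real.exp_neg, inv_le_comm₀ (Real.exp_pos _) hκ, ← one_div]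
    linarith [Real.add_one_le_exp (Fintype.card V : ℝ)]

end Pool.Agent.MP_81f5b7_pr.H66
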